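import Mathlib

namespace Pool.Agent.Helper88.CU

/-- A collision of the cubic `A x³ + B x² + C x`. -/
def Coll (A B C : ℤ) : Prop :=
  ∃ x1 x2 x3 x4 : ℤ, 0 ≤ x3 ∧ x3 < x1 ∧ x1 < x2 ∧ x3 < x4 ∧
    (A * x1 ^ 3 + B * x1 ^ 2 + C * x1) + (A * x2 ^ 3 + B * x2 ^ 2 + C * x2)
      = (A * x3 ^ 3 + B * x3 ^ 2 + C * x3) + (A * x4 ^ 3 + B * x4 ^ 2 + C * x4)

theorem fam1 (A B C τ : ℤ) (hA : 0 < A) (m : ℤ) (hm : 2 ≤ m) (hE : 0 < 3 * A * τ - B)
    (u : ℤ) (hu : m + 1 = 2 * (3 * A * τ - B) * u)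
    (z : ℤ) (hz : m ∣ A * z ^ 2 + (3 * A * τ ^ 2 - 2 * B * τ + C)) : Coll A B C := by
  obtain ⟨E, hEd⟩ : ∃ E, E = 3 * A * τ - B := ⟨_, rfl⟩
  obtain ⟨D, hDd⟩ : ∃ D, D = 3 * A * τ ^ 2 - 2 * B * τ + C := ⟨_, rfl⟩
  rw [← hEd] at hE hu
  rw [← hDd] at hz
  -- choose b large congruent to z mod m
  obtain ⟨L, hL⟩ : ∃ L, L = 2 * E * m * ((m ^ 2 + 1) + |τ| + 1) + |D| := ⟨_, rfl⟩
  obtain ⟨b, hb⟩ : ∃ b, b = z + m * (|z| + L + 1) := ⟨_, rfl⟩
  have hτ0 := abs_nonneg τ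
  have hD0 := abs_nonneg D
  have hτ1 := le_abs_self τ
  have hτ2 := neg_abs_le τ
  have hD1 := neg_abs_le D
  have hz0 := abs_nonneg z
  have hz1 := neg_abs_le z
  have hEm : 0 < E * m := by positivity
  have hLpos : 0 ≤ 2 * E * m * ((m ^ 2 + 1) + |τ| + 1) := by positivity
  have hL0 : 0 ≤ L := by rw [hL]; positivity
  have hbL : L + 1 ≤ b := by
    have : 1 * (|z| + L + 1) ≤ m * (|z| + L + 1) := by
      apply mul_le_mul_of_nonneg_right <;> linarith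
    linarith
  have hbD : |D| + 1 ≤ b := by linarith
  have hbpos : 0 < b := by linarith
  have hdvd : m ∣ A * (m ^ 4 + m ^ 2 + 1) * b ^ 2 + D := by
    have h1 : A * (m ^ 4 + m ^ 2 + 1) * b ^ 2 + D
        = (A * z ^ 2 + D) + m * (A * (m ^ 3 + m) * b ^ 2
          + A * (2 * z * (|z| + L + 1) + m * (|z| + L + 1) ^ 2)) := by
      rw [hb]; ring
    rw [h1]
    exact dvd_add hz (dvd_mul_right _ _)
  obtain ⟨w, hw⟩ := hdvd
  have hu0 : 0 < u := by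
    by_contra h
    push Not at h
    have : 2 * E * u ≤ 0 := mul_nonpos_of_nonneg_of_nonpos (by linarith) h
    linarith
  obtain ⟨X, hXd⟩ : ∃ X, X = u * w := ⟨_, rfl⟩
  have hX : 2 * E * m * X = (m + 1) * (A * (m ^ 4 + m ^ 2 + 1) * b ^ 2 + D) := by
    rw [hw, hu, hXd]; ring
  -- size of X
  have hbig : (m ^ 2 + 1) * b + |τ| < X := by
    have h1 : b ^ 2 ≤ A * (m ^ 4 + m ^ 2 + 1) * b ^ 2 + D := by
      have h2 : (2 : ℤ) ≤ A * (m ^ 4 + m ^ 2 + 1) := by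
        have : (2 : ℤ) ≤ m ^ 4 + m ^ 2 + 1 := by nlinarith [sq_nonneg (m ^ 2), sq_nonneg m]
        nlinarith
      have h3 : 2 * b ^ 2 ≤ A * (m ^ 4 + m ^ 2 + 1) * b ^ 2 :=
        mul_le_mul_of_nonneg_right h2 (sq_nonneg b)
      have h4 : |D| ≤ b ^ 2 := by nlinarith
      linarith
    have h5 : b ^ 2 ≤ (m + 1) * (A * (m ^ 4 + m ^ 2 + 1) * b ^ 2 + D) := by
      nlinarith [sq_nonneg b]
    have h6 : (2 * E * m * ((m ^ 2 + 1) + |τ| + 1)) * b < b ^ 2 := by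
      have : 2 * E * m * ((m ^ 2 + 1) + |τ| + 1) < b := by linarith
      nlinarith
    have h7 : 2 * E * m * ((m ^ 2 + 1) * b + |τ|) ≤ (2 * E * m * ((m ^ 2 + 1) + |τ| + 1)) * b := by
      have h8 : (m ^ 2 + 1) * b + |τ| ≤ ((m ^ 2 + 1) + |τ| + 1) * b := by nlinarith
      have h9 : 2 * E * m * ((m ^ 2 + 1) * b + |τ|)
          ≤ 2 * E * m * (((m ^ 2 + 1) + |τ| + 1) * b) :=
        mul_le_mul_of_nonneg_left h8 (by positivity)
      linarith
    have h10 : 2 * E * m * ((m ^ 2 + 1) * b + |τ|) < 2 * E * m * X := by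
      rw [hX]; linarith
    exact lt_of_mul_lt_mul_left h10 (by positivity)
  have hmb : 0 < m ^ 2 * b := by positivity
  have e1 : (m ^ 2 + 1) * b = m ^ 2 * b + b := by ring
  have hX0 : 0 < X := by linarith
  have e2 : 2 * X ≤ m * X := mul_le_mul_of_nonneg_right hm hX0.le
  refine ⟨X + m ^ 2 * b - τ, m * X - b - τ, X - m ^ 2 * b - τ, m * X + b - τ, ?_, ?_, ?_, ?_, ?_⟩
  · linarith
  · linarith
  · linarith
  · linarith
  · subst hEd
    subst hDd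
    linear_combination (-2 * b * (m - 1)) * hX

theorem fam2 (A B C : ℤ) (hA : 0 < A) (hQ : B ^ 2 = 3 * A * C) : Coll A B C := by
  obtain ⟨i, hi⟩ : ∃ i, i = |B| + 1 := ⟨_, rfl⟩
  obtain ⟨m, hm⟩ : ∃ m, m = 3 * A - 1 := ⟨_, rfl⟩
  obtain ⟨G, hG⟩ : ∃ G, G = 3 * A * i - B := ⟨_, rfl⟩
  obtain ⟨t, ht⟩ : ∃ t, t = 6 * A * i - B - 2 * i := ⟨_, rfl⟩
  obtain ⟨β, hβ⟩ : ∃ β, β = (m ^ 2 + 1) * m + i + |t| + 1 := ⟨_, rfl⟩
  obtain ⟨b, hb⟩ : ∃ b, b = 4 * m * G * β := ⟨_, rfl⟩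
  obtain ⟨X, hX⟩ : ∃ X, X = 4 * A * (m ^ 6 - 1) * G * β ^ 2 - i := ⟨_, rfl⟩
  have hB0 := abs_nonneg B
  have hB1 := le_abs_self B
  have ht0 := abs_nonneg t
  have ht1 := neg_abs_le t
  have hm2 : 2 ≤ m := by linarith
  have hi1 : 1 ≤ i := by linarith
  have hG1 : 1 ≤ G := by
    have : 1 * i ≤ (3 * A) * i := mul_le_mul_of_nonneg_right (by linarith) (by linarith)
    linarith
  have hm0 : 0 < m := by linarith
  have hβ1 : 1 ≤ β := by
    have : 0 ≤ (m ^ 2 + 1) * m := by positivity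
    linarith
  have hG0 : 0 < G := by linarith
  have hβ0 : 0 < β := by linarith
  have hb0 : 0 < b := by rw [hb]; positivity
  have hm6 : 1 ≤ m ^ 6 - 1 := by
    have : (2 : ℤ) ^ 6 ≤ m ^ 6 := pow_le_pow_left₀ (by norm_num) hm2 6
    linarith
  have hbig : (m ^ 2 + 1) * b + |t| < X := by
    have h1 : G * β ^ 2 * 4 ≤ 4 * A * (m ^ 6 - 1) * G * β ^ 2 := by
      have h2 : 1 ≤ A * (m ^ 6 - 1) := by nlinarith
      have h3 : 0 ≤ 4 * G * β ^ 2 := by positivity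
      nlinarith
    have h4 : G * β ^ 2 * 4 = 4 * G * β * ((m ^ 2 + 1) * m) + 4 * G * β * (i + |t| + 1) := by
      rw [show β ^ 2 = β * β by ring]
      conv_lhs => rw [show G * (β * β) * 4 = 4 * G * β * β by ring]
      rw [show 4 * G * β * β = 4 * G * β * ((m ^ 2 + 1) * m + (i + |t| + 1)) by
        conv_lhs => rw [show (4 * G * β * β) = (4 * G * β) * β by ring]
        congr 1
        rw [hβ]; ring]
      ring
    have h5 : (m ^ 2 + 1) * b = 4 * G * β * ((m ^ 2 + 1) * m) := by rw [hb]; ring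
    have h6 : i + |t| + 1 ≤ 4 * G * β * (i + |t| + 1) := by
      have h7 : 1 ≤ 4 * G * β := by nlinarith
      have h8 : 0 ≤ i + |t| + 1 := by linarith
      nlinarith
    linarith
  have hmb : 0 < m ^ 2 * b := by positivity
  have e1 : (m ^ 2 + 1) * b = m ^ 2 * b + b := by ring
  have hX0 : 0 < X := by linarith
  have e2 : 2 * X ≤ m * X := mul_le_mul_of_nonneg_right hm2 hX0.le
  refine ⟨X + m ^ 2 * b, m * X + t - b, X - m ^ 2 * b, m * X + t + b, ?_, ?_, ?_, ?_, ?_⟩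
  · linarith
  · linarith
  · linarith
  · linarith
  · have key : ∀ x y z w : ℤ, (3 * A * x + B) ^ 3 + (3 * A * y + B) ^ 3
        = (3 * A * z + B) ^ 3 + (3 * A * w + B) ^ 3 →
        (A * x ^ 3 + B * x ^ 2 + C * x) + (A * y ^ 3 + B * y ^ 2 + C * y)
          = (A * z ^ 3 + B * z ^ 2 + C * z) + (A * w ^ 3 + B * w ^ 2 + C * w) := by
      intro x y z w h
      have hne : (27 * A ^ 2 : ℤ) ≠ 0 := by positivity
      apply mul_left_cancel₀ hne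
      have e : ∀ x : ℤ, 27 * A ^ 2 * (A * x ^ 3 + B * x ^ 2 + C * x)
          = (3 * A * x + B) ^ 3 - B ^ 3 := by
        intro x
        linear_combination (-9 * A * x) * hQ
      linear_combination h + e x + e y - e z - e w
    apply key
    subst hX
    subst hb
    subst ht
    subst hG
    subst hm
    ring

end Pool.Agent.Helper88.CU
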