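import Mathlib

namespace Pool.Agent.Helper88.CU

open NumberTheorySymbols

/-- `J(R | p) = 1` for a prime-like odd `p ≡ -1 mod 8R`. -/
theorem jac_R (R p : ℕ) (hR : 0 < R) (hp : Odd p) (h : 4 * R ∣ p + 1) : J(R | p) = 1 := by
  rw [jacobiSym.mod_right' R hp]
  have h1 : p % (4 * R) = 4 * R - 1 := by
    obtain ⟨k, hk⟩ := h
    have hk0 : 0 < k := by
      rcases Nat.eq_zero_or_pos k with rfl | h
      · simp at hk
      · exact h
    obtain ⟨j, rfl⟩ : ∃ j, k = j + 1 := ⟨k - 1, by omega⟩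
    have : p = (4 * R - 1) + 4 * R * j := by
      have : 4 * R * (j + 1) = 4 * R * j + 4 * R := by ring
      omega
    rw [this, Nat.add_mul_mod_self_left]
    exact Nat.mod_eq_of_lt (by omega)
  rw [h1]
  have hc : Int.gcd 2 ((4 * R - 1 : ℕ) : ℤ) = 1 := by
    have : Odd (4 * R - 1) := ⟨2 * R - 1, by omega⟩
    have h2 : Nat.Coprime 2 (4 * R - 1) := (Nat.coprime_two_left).2 this
    exact_mod_cast h2
  have h3 : J((2 : ℤ) ^ 2 | 4 * R - 1) = 1 := jacobiSym.sq_one' hc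
  have h4 : J((2 : ℤ) ^ 2 * (R : ℤ) | 4 * R - 1) = 1 := by
    have : J((2 : ℤ) ^ 2 * (R : ℤ) | 4 * R - 1) = J(1 | 4 * R - 1) := by
      apply jacobiSym.mod_left'
      have e : (2 : ℤ) ^ 2 * (R : ℤ) = 1 + ((4 * R - 1 : ℕ) : ℤ) := by
        have : ((4 * R - 1 : ℕ) : ℤ) = 4 * (R : ℤ) - 1 := by
          rw [Nat.cast_sub (by omega)]; push_cast; ring
        rw [this]; ring
      rw [e, Int.add_emod_right]
    rw [this, jacobiSym.one_left]
  rw [jacobiSym.mul_left, h3, one_mul] at h4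
  exact h4

/-- A prime `q ≡ 1 mod 4`, coprime to `6 A Q`, for which `-Q` is a square. -/
theorem exists_q (A Q : ℤ) (hA : A ≠ 0) (hQ : Q ≠ 0) :
    ∃ q : ℕ, q.Prime ∧ q % 4 = 1 ∧ ¬ (q : ℤ) ∣ 6 * A * Q ∧ ∃ e : ℤ, (q : ℤ) ∣ e ^ 2 + Q := by
  have hk : 4 * (6 * A * Q).natAbs ≠ 0 := by
    have : 6 * A * Q ≠ 0 := by positivity
    have := Int.natAbs_ne_zero.2 this
    omega
  obtain ⟨q, hq, hgt, hmod⟩ := Nat.exists_prime_gt_modEq_one (4 * (6 * A * Q).natAbs) hk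
  have hq4 : q % 4 = 1 := by
    have h1 : q ≡ 1 [MOD 4] := Nat.ModEq.of_mul_right _ hmod
    exact h1
  have hnd : ¬ (q : ℤ) ∣ 6 * A * Q := by
    intro h
    have h1 := Int.natAbs_dvd_natAbs.2 h
    rw [Int.natAbs_natCast] at h1
    have h2 := Nat.le_of_dvd (by omega) h1
    omega
  refine ⟨q, hq, hq4, hnd, ?_⟩
  have := Fact.mk hq
  have hodd : Odd q := Nat.odd_iff.2 (Nat.odd_of_mod_four_eq_one hq4)
  have hJ : J(-Q | q) = 1 := by
    rw [jacobiSym.mod_right _ hodd]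
    have : q % (4 * (-Q).natAbs) = 1 := by
      have h1 : q ≡ 1 [MOD (4 * (-Q).natAbs)] := by
        apply Nat.ModEq.of_dvd _ hmod
        rw [Int.natAbs_neg]
        exact Nat.mul_dvd_mul_left 4 (Int.natAbs_dvd_natAbs.2 (Dvd.intro_left _ rfl))
      have h2 : 1 < 4 * (-Q).natAbs := by
        have := Int.natAbs_ne_zero.2 hQ
        rw [Int.natAbs_neg]; omega
      rw [h1, Nat.mod_eq_of_lt h2]
    rw [this, jacobiSym.one_right]
  obtain ⟨r, hr⟩ := ZMod.isSquare_of_jacobiSym_eq_one hJ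
  refine ⟨(r.val : ℤ), ?_⟩
  rw [← ZMod.intCast_zmod_eq_zero_iff_dvd]
  push_cast
  rw [ZMod.natCast_zmod_val]
  push_cast at hr
  linear_combination (-1 : ZMod q) * hr

/-- The main arithmetic step. -/
theorem main_arith (A B C : ℤ) (hA : 0 < A) (hQ : 3 * A * C - B ^ 2 ≠ 0) :
    ∃ τ m u z : ℤ, 2 ≤ m ∧ 0 < 3 * A * τ - B ∧ m + 1 = 2 * (3 * A * τ - B) * u ∧
      m ∣ A * z ^ 2 + (3 * A * τ ^ 2 - 2 * B * τ + C) := by
  obtain ⟨Q, hQd⟩ : ∃ Q, Q = 3 * A * C - B ^ 2 := ⟨_, rfl⟩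
  rw [← hQd] at hQ
  obtain ⟨q, hq, hq4, hnd, e0, he0⟩ := exists_q A Q hA.ne' hQ
  have hqp : Prime (q : ℤ) := Nat.prime_iff_prime_int.1 hq
  have hq2 : ¬ (q : ℤ) ∣ 2 := fun h => hnd (by
    rw [show 6 * A * Q = 2 * (3 * A * Q) by ring]; exact h.mul_right _)
  have hq3 : ¬ (q : ℤ) ∣ 3 := fun h => hnd (by
    rw [show 6 * A * Q = 3 * (2 * A * Q) by ring]; exact h.mul_right _)
  have hqA : ¬ (q : ℤ) ∣ A := fun h => hnd (by
    rw [show 6 * A * Q = A * (6 * Q) by ring]; exact h.mul_right _)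
  have hqQ : ¬ (q : ℤ) ∣ Q := fun h => hnd (by
    rw [show 6 * A * Q = Q * (6 * A) by ring]; exact h.mul_right _)
  obtain ⟨e1, he1, he1'⟩ : ∃ e1 : ℤ, (q : ℤ) ∣ e1 ^ 2 + Q ∧ ¬ (q : ℤ) ^ 2 ∣ e1 ^ 2 + Q := by
    by_cases h : (q : ℤ) ^ 2 ∣ e0 ^ 2 + Q
    · refine ⟨e0 + q, ?_, ?_⟩
      · have : (e0 + q) ^ 2 + Q = (e0 ^ 2 + Q) + q * (2 * e0 + q) := by ring
        rw [this]; exact dvd_add he0 (dvd_mul_right _ _)
      · intro h2
        have h3 : (q : ℤ) ^ 2 ∣ q * (2 * e0) := by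
          have : (q : ℤ) * (2 * e0) = ((e0 + q) ^ 2 + Q) - (e0 ^ 2 + Q) - q ^ 2 * 1 := by ring
          rw [this]
          exact dvd_sub (dvd_sub h2 h) (dvd_mul_right _ _)
        rw [sq] at h3
        have h4 : (q : ℤ) ∣ 2 * e0 := (mul_dvd_mul_iff_left hqp.ne_zero).1 h3
        rcases hqp.dvd_or_dvd h4 with h5 | h5
        · exact hq2 h5
        · apply hqQ
          have h6 := dvd_sub he0 (dvd_mul_of_dvd_left h5 e0)
          have : e0 ^ 2 + Q - e0 * e0 = Q := by ring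
          rwa [this] at h6
    · exact ⟨e0, he0, h⟩
  have hcop : IsCoprime (3 * A) ((q : ℤ) ^ 2) := by
    apply IsCoprime.pow_right
    have : ¬ (q : ℤ) ∣ 3 * A := fun h => (hqp.dvd_or_dvd h).elim hq3 hqA
    exact ((hqp.coprime_iff_not_dvd).2 this).symm
  obtain ⟨y, x, hxy⟩ := hcop
  obtain ⟨K, hK⟩ : ∃ K : ℤ, K = |(e1 + B) * y| + |B| + |Q| + 1 := ⟨_, rfl⟩
  obtain ⟨τ, hτ⟩ : ∃ τ, τ = (e1 + B) * y + q ^ 2 * K := ⟨_, rfl⟩
  obtain ⟨E, hE⟩ : ∃ E, E = 3 * A * τ - B := ⟨_, rfl⟩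
  have hEe : E = e1 + q ^ 2 * (3 * A * K - x * (e1 + B)) := by
    rw [hE, hτ]; linear_combination (e1 + B) * hxy
  have ha1 := neg_abs_le ((e1 + B) * y)
  have ha2 := abs_nonneg ((e1 + B) * y)
  have ha3 := abs_nonneg B
  have ha4 := abs_nonneg Q
  have ha5 := le_abs_self B
  have ha6 := neg_abs_le Q
  have hq1 : (1 : ℤ) ≤ (q : ℤ) ^ 2 := by
    have : (1 : ℤ) ≤ q := by exact_mod_cast hq.one_lt.le
    nlinarith
  have hτb : |B| + |Q| + 1 ≤ τ := by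
    have : 1 * K ≤ (q : ℤ) ^ 2 * K := mul_le_mul_of_nonneg_right hq1 (by linarith)
    linarith
  have hEpos : |Q| + 1 ≤ E := by
    have : 1 * τ ≤ (3 * A) * τ := mul_le_mul_of_nonneg_right (by linarith) (by linarith)
    linarith
  obtain ⟨D, hD⟩ : ∃ D, D = 3 * A * τ ^ 2 - 2 * B * τ + C := ⟨_, rfl⟩
  have h3N : 3 * (A * D) = E ^ 2 + Q := by rw [hD, hE, hQd]; ring
  have hEQ : 0 < E ^ 2 + Q := by nlinarith
  have hEe2 : E ^ 2 + Q = (e1 ^ 2 + Q) + q ^ 2 * ((3 * A * K - x * (e1 + B)) *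
      (2 * e1 + q ^ 2 * (3 * A * K - x * (e1 + B)))) := by
    rw [hEe]; ring
  have hqE : (q : ℤ) ∣ E ^ 2 + Q := by
    rw [hEe2]
    exact dvd_add he1 (dvd_mul_of_dvd_left (dvd_pow_self _ two_ne_zero) _)
  have hqE2 : ¬ (q : ℤ) ^ 2 ∣ E ^ 2 + Q := by
    intro h
    rw [hEe2] at h
    exact he1' ((dvd_add_left (dvd_mul_right _ _)).1 h)
  have hqN : (q : ℤ) ∣ A * D := by
    rw [← h3N] at hqE
    exact (hqp.dvd_or_dvd hqE).resolve_left hq3
  obtain ⟨R, hR⟩ := hqN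
  have hqR : ¬ (q : ℤ) ∣ R := by
    rintro ⟨R', hR'⟩
    apply hqE2
    rw [← h3N, hR, hR']
    exact ⟨3 * R', by ring⟩
  have hqE' : ¬ (q : ℤ) ∣ E := by
    intro h
    apply hqQ
    have h6 := dvd_sub hqE (dvd_mul_of_dvd_left h E)
    have : E ^ 2 + Q - E * E = Q := by ring
    rwa [this] at h6
  have hq0 : (0 : ℤ) < q := by exact_mod_cast hq.pos
  have hRpos : 0 < R := by
    by_contra h
    push Not at h
    have : (q : ℤ) * R ≤ 0 := mul_nonpos_of_nonneg_of_nonpos hq0.le h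
    linarith
  obtain ⟨En, hEn⟩ : ∃ n : ℕ, (n : ℤ) = E := ⟨E.toNat, Int.toNat_of_nonneg (by linarith)⟩
  obtain ⟨Rn, hRn⟩ : ∃ n : ℕ, (n : ℤ) = R := ⟨R.toNat, Int.toNat_of_nonneg (by linarith)⟩
  have hEn0 : 0 < En := by
    have : (0 : ℤ) < En := by rw [hEn]; linarith
    exact_mod_cast this
  have hRn0 : 0 < Rn := by
    have : (0 : ℤ) < Rn := by rw [hRn]; linarith
    exact_mod_cast this
  have := Fact.mk hq
  obtain ⟨ν, hν⟩ := FiniteField.exists_nonsquare (F := ZMod q) (by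
    rw [ZMod.ringChar_zmod_n]
    intro h
    apply hq2
    rw [h]; norm_num)
  have hν0 : ν ≠ 0 := by
    rintro rfl
    exact hν ⟨0, by simp⟩
  obtain ⟨M, hM⟩ : ∃ M, M = 8 * En * Rn := ⟨_, rfl⟩
  have hM0 : 0 < M := by rw [hM]; positivity
  have hMq : M.Coprime q := by
    rw [Nat.coprime_comm, Nat.Prime.coprime_iff_not_dvd hq, hM]
    intro h
    have h' : (q : ℤ) ∣ 8 * E * R := by
      rw [← hEn, ← hRn]
      exact_mod_cast h
    rcases hqp.dvd_or_dvd h' with h1 | h1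
    · rcases hqp.dvd_or_dvd h1 with h2 | h2
      · rw [show (8 : ℤ) = 2 ^ 3 by norm_num] at h2
        exact hq2 (hqp.dvd_of_dvd_pow h2)
      · exact hqE' h2
    · exact hqR h1
  obtain ⟨k, hk1, hk2⟩ := Nat.chineseRemainder hMq (M - 1) ν.val
  have hkc : k.Coprime (M * q) := by
    apply Nat.Coprime.mul_right
    · have h1 : Nat.gcd k M = Nat.gcd (M - 1) M := Nat.ModEq.gcd_eq hk1
      rw [Nat.coprime_iff_gcd_eq_one, h1]
      have h2 : Nat.Coprime (M - 1) (M - 1 + 1) := by simp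
      have h3 : M - 1 + 1 = M := by omega
      rwa [h3] at h2
    · rw [Nat.coprime_comm, Nat.Prime.coprime_iff_not_dvd hq]
      intro h
      apply hν0
      have h1 : (k : ZMod q) = (ν.val : ZMod q) := (ZMod.natCast_eq_natCast_iff _ _ _).2 hk2
      rw [ZMod.natCast_zmod_val, (ZMod.natCast_eq_zero_iff _ _).2 h] at h1
      exact h1.symm
  obtain ⟨p, hpgt, hpp, hpk⟩ := Nat.forall_exists_prime_gt_and_modEq (A.toNat + 2)
    (q := M * q) (a := k) (Nat.mul_ne_zero hM0.ne' hq.ne_zero) hkc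
  have hpM : M ∣ p + 1 := by
    have h1 : p ≡ M - 1 [MOD M] := (Nat.ModEq.of_mul_right _ hpk).trans hk1
    have h2 : p + 1 ≡ M - 1 + 1 [MOD M] := h1.add_right 1
    have h3 : M - 1 + 1 = M := by omega
    rw [h3] at h2
    exact (Nat.modEq_zero_iff_dvd).1 (h2.trans (by simp [Nat.ModEq]))
  have hpν : (p : ZMod q) = ν := by
    have h1 : p ≡ ν.val [MOD q] := (Nat.ModEq.of_mul_left _ hpk).trans hk2
    have h2 : (p : ZMod q) = (ν.val : ZMod q) := (ZMod.natCast_eq_natCast_iff _ _ _).2 h1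
    rwa [ZMod.natCast_zmod_val] at h2
  have hp4 : p % 4 = 3 := by
    have : 4 ∣ p + 1 := dvd_trans ⟨2 * En * Rn, by rw [hM]; ring⟩ hpM
    omega
  have hpodd : Odd p := Nat.odd_iff.2 (by omega)
  have hFp := Fact.mk hpp
  have hJ : J(-(A * D) | p) = 1 := by
    have e : -(A * D) = (-1) * ((q : ℤ) * (Rn : ℤ)) := by rw [hR, hRn]; ring
    rw [e, jacobiSym.mul_left, jacobiSym.mul_left, jacobiSym.at_neg_one hpodd,
      ZMod.χ₄_nat_three_mod_four hp4, jacobiSym.quadratic_reciprocity_one_mod_four hq4 hpodd,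
      jac_R Rn p hRn0 hpodd (dvd_trans ⟨2 * En, by rw [hM]; ring⟩ hpM)]
    have : J((p : ℤ) | q) = -1 := by
      rw [ZMod.nonsquare_iff_jacobiSym_eq_neg_one]
      push_cast
      rw [hpν]
      exact hν
    rw [this]
    norm_num
  obtain ⟨r, hr⟩ := ZMod.isSquare_of_jacobiSym_eq_one hJ
  have hpA : (A : ZMod p) ≠ 0 := by
    intro h
    rw [ZMod.intCast_zmod_eq_zero_iff_dvd] at h
    have h1 := Int.le_of_dvd hA h
    omega
  obtain ⟨j, hj⟩ := hpM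
  refine ⟨τ, p, 4 * R * j, ((r * (A : ZMod p)⁻¹).val : ℤ), ?_, ?_, ?_, ?_⟩
  · have := hpp.two_le
    exact_mod_cast this
  · rw [← hE]; linarith
  · rw [← hE]
    have : ((p : ℤ) + 1) = (M : ℤ) * j := by exact_mod_cast hj
    rw [this, hM]
    push_cast
    rw [hEn, hRn]; ring
  · rw [← hD, ← ZMod.intCast_zmod_eq_zero_iff_dvd]
    push_cast
    rw [ZMod.natCast_zmod_val]
    push_cast at hr
    apply mul_left_cancel₀ hpA
    field_simp
    linear_combination (-1 : ZMod p) * hr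

end Pool.Agent.Helper88.CU
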